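import Pool.Agent.Lib.MP_b5021c_nt.IfaceUF
import Pool.Agent.Lib.MP_b5021c_nt.DCM.H61.Main
import Pool.Agent.Lib.MP_b5021c_nt.DCM.H61.Avg
import Pool.Agent.Lib.MP_b5021c_nt.E.H03.Wcm
import Pool.Agent.Lib.MP_b5021c_nt.H47.Mut
import Pool.Agent.Lib.MP_b5021c_nt.B.H91.A1r
import Pool.Agent.Lib.MP_b5021c_nt.B.H59.CstA

/-!
# Board b5, stage 3, row UF_C3 (helper19): decoupling

`E = A + Z B`, `A = G + (1 - y) R`, `B = - y G - (1 - y) R`, `A^# kap = Z B`.  The completion
`A + x' A^#` is in `DD`, of class `V(N)` and rank `2N`.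
-/

set_option linter.unusedSectionVars false

namespace Pool.Agent.B5.UF.H19

open scoped LaurentPolynomial
open Pool.Agent.B5 Pool.Agent.B5.H83 Pool.Agent.B5.H96 Pool.Agent.B5.H07

section gen

variable {L : Type} [AddCommGroup L] [Module.Free ℤ L] [Module.Finite ℤ L]

theorem cst_mul' (p q : RO ℤ) : (cst (p * q) : AO ℤ L) = cst p * cst q := by
  unfold cst
  rw [AddMonoidAlgebra.single_mul_single, add_zero]

theorem cst_sub' (p q : RO ℤ) : (cst (p - q) : AO ℤ L) = cst p - cst q := by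
  unfold cst
  rw [AddMonoidAlgebra.single_sub]

theorem cst_one' : (cst 1 : AO ℤ L) = 1 := rfl

theorem cst_ne {c : RO ℤ} (hc : c ≠ 0) : (cst c : AO ℤ L) ≠ 0 := by
  intro h
  apply hc
  have h1 := congrArg (fun F : AO ℤ L => F.coeff 0) h
  change (cst c : AO ℤ L).coeff 0 = (0 : AO ℤ L).coeff 0 at h1
  unfold cst at h1
  rw [AddMonoidAlgebra.coeff_single, Finsupp.single_eq_same] at h1
  exact h1

theorem sharp_cst (p : RO ℤ) : sharp (cst p : AO ℤ L) = cst (rsh p) := by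
  unfold cst
  rw [Pool.Agent.B5.H24.sharp_single, neg_zero]

theorem sharp_emK (K : Submodule ℤ L) (F : AO ℤ K) : sharp (emK K F) = emK K (sharp F) := by
  apply AddMonoidAlgebra.ext
  apply Finsupp.ext
  intro a
  rw [sharp_coeff']
  by_cases ha : a ∈ K
  · have h1 := emK_coeff K F (-⟨a, ha⟩)
    have h2 := emK_coeff K (sharp F) ⟨a, ha⟩
    rw [sharp_coeff'] at h2
    have h3 : ((-⟨a, ha⟩ : K) : L) = -a := rfl
    rw [h3] at h1
    rw [h1]
    exact h2.symm
  · rw [emK_coeff_not K _ a ha, emK_coeff_not K F (-a) (fun h => ha (by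
      have := K.neg_mem h
      rwa [neg_neg] at this)), map_zero]

theorem emK_cst_mul (K : Submodule ℤ L) (c : RO ℤ) (F : AO ℤ K) :
    emK K (cst c * F) = cst c * emK K F := by
  rw [map_mul, emK_cst]

theorem rsh_unit (e : (RO ℤ)ˣ) : rsh (e : RO ℤ) = ((e⁻¹ : (RO ℤ)ˣ) : RO ℤ) := by
  have h := Pool.Agent.B5.H24.rsh_zpow e 1
  rwa [zpow_one, zpow_neg_one] at h

theorem unit_inv_mul (e : (RO ℤ)ˣ) : ((e⁻¹ : (RO ℤ)ˣ) : RO ℤ) * (e : RO ℤ) = 1 := Units.inv_mul e

theorem unit_mul_inv (e : (RO ℤ)ˣ) : (e : RO ℤ) * ((e⁻¹ : (RO ℤ)ˣ) : RO ℤ) = 1 := Units.mul_inv e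

theorem res_single_mul (k : L →+ ℤ) (S : L) (h : k S = 1) (c : RO ℤ) (F : AO ℤ (Ker k)) :
    res (Ker k) (AddMonoidAlgebra.single S c * emK (Ker k) F) = 0 := by
  apply AddMonoidAlgebra.ext
  apply Finsupp.ext
  intro a
  rw [res_coeff, AddMonoidAlgebra.coeff_single_mul_apply, emK_coeff_not, mul_zero]
  · rfl
  · intro h1
    rw [mem_Ker, map_add, map_neg, h] at h1
    have h2 : k (a : L) = 0 := a.2
    omega

end gen

/-! ## The parts `A`, `B` -/

section parts

variable {P : Type} [Fintype P] [DecidableEq P] {L : Type} [AddCommGroup L] [Module.Free ℤ L]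
  [Module.Finite ℤ L] (phi : L →+ (P → ℤ)) (E : AO ℤ L) (S : L) (i0 : P)
  (h : co phi i0 S = 1) (eta : (RO ℤ)ˣ) (G R : AO ℤ (Ker (co phi i0))) (z : (RO ℤ)ˣ)

/-- `y = w^S / eta` -/
noncomputable def yS : AO ℤ L := AddMonoidAlgebra.single S ((eta⁻¹ : (RO ℤ)ˣ) : RO ℤ)

/-- `A = G + (1 - y) R` -/
noncomputable def Ap : AO ℤ L :=
  emK (Ker (co phi i0)) G + (1 - yS S eta) * emK (Ker (co phi i0)) R

/-- `B = - y G - (1 - y) R` -/
noncomputable def Bp : AO ℤ L :=
  -(yS S eta * emK (Ker (co phi i0)) G) - (1 - yS S eta) * emK (Ker (co phi i0)) R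

/-- The context. -/
structure Cx : Prop where
  cc : CC phi E S i0 eta
  ne : 1 - (z : RO ℤ) ≠ 0
  V : cl (co phi i0) S h eta E = cst (1 - (z : RO ℤ)) * G
  X : res (Ker (co phi i0)) E = G + cst (1 - (z : RO ℤ)) * R

variable {phi E S i0 h eta G R z}

theorem bin_co (H : Cx phi E S i0 h eta G R z) :
    ∀ a ∈ supp E, co phi i0 a = 0 ∨ co phi i0 a = 1 := fun a ha => H.cc.dd.bin a ha i0

theorem E_eq (H : Cx phi E S i0 h eta G R z) :
    E = Ap phi S i0 eta G R + cst (z : RO ℤ) * Bp phi S i0 eta G R := by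
  have h1 := Dcm.split (co phi i0) S h eta E (bin_co H)
  rw [H.V, H.X] at h1
  rw [map_sub, map_add, emK_cst_mul, emK_cst_mul, cst_sub', cst_one'] at h1
  rw [h1]
  unfold Ap Bp yS
  ring

theorem res_sub' (K : Submodule ℤ L) (F F' : AO ℤ L) : res K (F - F') = res K F - res K F' := by
  have h1 := res_add K (F - F') F'
  rw [sub_add_cancel] at h1
  rw [h1, add_sub_cancel_right]

theorem res_emK (K : Submodule ℤ L) (F : AO ℤ K) : res K (emK K F) = F := by
  apply AddMonoidAlgebra.ext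
  apply Finsupp.ext
  intro a
  rw [res_coeff, emK_coeff]

theorem A_eq : Ap phi S i0 eta G R = emK (Ker (co phi i0)) (G + R) -
    yS S eta * emK (Ker (co phi i0)) R := by
  unfold Ap
  rw [map_add]
  ring

include h in
theorem res_A : res (Ker (co phi i0)) (Ap phi S i0 eta G R) = G + R := by
  rw [A_eq, res_sub', res_emK]
  unfold yS
  rw [res_single_mul (co phi i0) S h, sub_zero]

theorem cl_y : cl (co phi i0) S h eta (yS S eta) = 1 := by
  unfold yS
  rw [cl_single]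
  have h1 : prj (co phi i0) S h S = 0 := by
    apply Subtype.ext
    rw [prj_coe, h, one_zsmul, sub_self]
    rfl
  rw [h1, h, zpow_one, Units.inv_mul]
  rfl

theorem cl_A : cl (co phi i0) S h eta (Ap phi S i0 eta G R) = G := by
  unfold Ap
  rw [map_add, map_mul, map_sub, map_one, cl_y, sub_self, zero_mul, add_zero, Dcm.cl_emK]

include h in
theorem co_A : ∀ a ∈ supp (Ap phi S i0 eta G R), co phi i0 a = 0 ∨ co phi i0 a = 1 := by
  intro a ha
  rw [A_eq] at ha
  by_contra hcon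
  push Not at hcon
  apply ha
  rw [AddMonoidAlgebra.coeff_sub, Finsupp.sub_apply, emK_coeff_not _ _ _ (fun h1 => hcon.1 h1)]
  unfold yS
  rw [AddMonoidAlgebra.coeff_single_mul_apply, emK_coeff_not, mul_zero, sub_zero]
  intro h1
  rw [mem_Ker, map_add, map_neg, h] at h1
  exact hcon.2 (by omega)

include h in
/-- the coefficients of `A` without the port -/
theorem A_coeff0 (a : Ker (co phi i0)) :
    (Ap phi S i0 eta G R).coeff (a : L) = G.coeff a + R.coeff a := by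
  have h1 := res_coeff (Ker (co phi i0)) (Ap phi S i0 eta G R) a
  rw [res_A (h := h)] at h1
  exact h1.symm

include h in
/-- the coefficients of `A` with the port -/
theorem A_coeff1 (a : Ker (co phi i0)) :
    (eta : RO ℤ) * (Ap phi S i0 eta G R).coeff ((a : L) + S) = -R.coeff a := by
  have h1 := H47.cl_coeff_bin (co phi i0) S h eta (Ap phi S i0 eta G R) (co_A (h := h)) a
  rw [cl_A, A_coeff0 (h := h)] at h1
  linear_combination -h1

theorem E_coeff0 (H : Cx phi E S i0 h eta G R z) (a : Ker (co phi i0)) :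
    E.coeff (a : L) = G.coeff a + (1 - (z : RO ℤ)) * R.coeff a := by
  have h1 := res_coeff (Ker (co phi i0)) E a
  rw [H.X] at h1
  rw [← h1, AddMonoidAlgebra.coeff_add, Finsupp.add_apply, cst_mul_coeff]

theorem E_coeff1 (H : Cx phi E S i0 h eta G R z) (a : Ker (co phi i0)) :
    (eta : RO ℤ) * E.coeff ((a : L) + S) =
      -((z : RO ℤ) * G.coeff a) - (1 - (z : RO ℤ)) * R.coeff a := by
  have h1 := H47.cl_coeff_bin (co phi i0) S h eta E (bin_co H) a
  rw [H.V, cst_mul_coeff, E_coeff0 H] at h1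
  linear_combination -h1

/-! ### The reversal -/

theorem sharp_y : sharp (yS S eta : AO ℤ L) * yS S eta = 1 := by
  unfold yS
  rw [Pool.Agent.B5.H24.sharp_single, AddMonoidAlgebra.single_mul_single, rsh_unit, inv_inv,
    neg_add_cancel, Units.mul_inv]
  rfl

theorem rev (hUn : UnitAS) (H : Cx phi E S i0 h eta G R z) :
    ∃ (t : Ker (co phi i0)) (c : (RO ℤ)ˣ),
      (∀ a : L, E.coeff a = rsh (E.coeff (t + S - a)) * ((c * eta⁻¹ : (RO ℤ)ˣ) : RO ℤ)) ∧
      sharp (Ap phi S i0 eta G R) *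
        (yS S eta * emK (Ker (co phi i0)) (AddMonoidAlgebra.single t (c : RO ℤ))) =
          cst (z : RO ℤ) * Bp phi S i0 eta G R := by
  obtain ⟨w, hw⟩ := H.cc.dd.un
  obtain ⟨t, c', ⟨c, hc⟩, htc⟩ := (hUn ℤ L (w : AO ℤ L)).1 w.isUnit
  rw [htc, ← hc] at hw
  have hco : ∀ a : L, E.coeff a = rsh (E.coeff (t - a)) * (c : RO ℤ) := by
    intro a
    conv_lhs => rw [← hw]
    rw [Dcm.mul_single_coeff, sharp_coeff', neg_sub]
  have hkt : co phi i0 t = 1 := by
    have h1 : E.coeff (t - 0) ≠ 0 := by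
      intro h2
      have h3 := hco 0
      rw [h2, map_zero (rsh (O := ℤ)), zero_mul] at h3
      exact H.cc.dd.st.1 h3
    have h2 : E.coeff (t - S) ≠ 0 := by
      intro h2
      have h3 := hco S
      rw [h2, map_zero (rsh (O := ℤ)), zero_mul] at h3
      exact H.cc.ray.1 h3
    have h3 := bin_co H _ h1
    have h4 := bin_co H _ h2
    rw [map_sub, h] at h4
    rw [map_sub, map_zero] at h3
    omega
  obtain ⟨t', ht'⟩ : ∃ t' : Ker (co phi i0), t' = prj (co phi i0) S h t := ⟨_, rfl⟩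
  have htt : (t' : L) = t - S := by
    rw [ht', prj_coe, hkt, one_smul]
  refine ⟨t', c * eta, ?_, ?_⟩
  · intro a
    rw [htt, sub_add_cancel, mul_inv_cancel_right]
    exact hco a
  obtain ⟨kap, hkap⟩ : ∃ kap : AO ℤ (Ker (co phi i0)),
    kap = AddMonoidAlgebra.single t' ((c * eta : (RO ℤ)ˣ) : RO ℤ) := ⟨_, rfl⟩
  rw [← hkap]
  obtain ⟨V, hV⟩ : ∃ V : AO ℤ (Ker (co phi i0)), V = cl (co phi i0) S h eta E := ⟨_, rfl⟩
  obtain ⟨XX, hXX⟩ : ∃ XX : AO ℤ (Ker (co phi i0)), XX = res (Ker (co phi i0)) E := ⟨_, rfl⟩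
  -- `V^# kap = V`
  have h1 : sharp V * kap = V := by
    have h2 := congrArg (cl (co phi i0) S h eta) hw
    rw [map_mul, ← Pool.Agent.B5.H24.sharp_cl, cl_single, hkt, zpow_one, ← Units.val_mul, ← ht',
      ← hkap, ← hV] at h2
    exact h2
  -- `X^# kap = V - X`
  have h2 : sharp XX * kap = V - XX := by
    apply AddMonoidAlgebra.ext
    apply Finsupp.ext
    intro a
    rw [hkap, Dcm.mul_single_coeff, sharp_coeff', AddMonoidAlgebra.coeff_sub, Finsupp.sub_apply,
      hV, H47.cl_coeff_bin (co phi i0) S h eta E (bin_co H) a, hXX, res_coeff, res_coeff,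
      add_sub_cancel_left, hco ((a : L) + S)]
    have h3 : ((-(a - t') : Ker (co phi i0)) : L) = t - (a + S) := by
      rw [Submodule.coe_neg, Submodule.coe_sub, htt]
      abel
    rw [h3, Units.val_mul]
    ring
  have hz1 : rsh (1 - (z : RO ℤ)) = 1 - ((z⁻¹ : (RO ℤ)ˣ) : RO ℤ) := by
    rw [map_sub, map_one, rsh_unit]
  have hzz : (cst ((z⁻¹ : (RO ℤ)ˣ) : RO ℤ) : AO ℤ (Ker (co phi i0))) * cst (z : RO ℤ) = 1 := by
    rw [← cst_mul', Units.inv_mul]
    rfl
  have hne : (1 - cst (z : RO ℤ) : AO ℤ (Ker (co phi i0))) ≠ 0 := by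
    have := cst_ne (L := Ker (co phi i0)) H.ne
    rwa [cst_sub', cst_one'] at this
  -- `G^# kap = - z G`
  have h3 : sharp G * kap = -(cst (z : RO ℤ) * G) := by
    rw [hV, H.V, map_mul, sharp_cst, hz1, cst_sub', cst_sub', cst_one'] at h1
    have h4 : (1 - cst (z : RO ℤ) : AO ℤ (Ker (co phi i0))) * (sharp G * kap) =
        (1 - cst (z : RO ℤ)) * (-(cst (z : RO ℤ) * G)) := by
      linear_combination -(cst (z : RO ℤ) : AO ℤ (Ker (co phi i0))) * h1 - (sharp G * kap) * hzz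
    exact mul_left_cancel₀ hne h4
  -- `R^# kap = z R`
  have h5 : sharp R * kap = cst (z : RO ℤ) * R := by
    rw [hV, hXX, H.V, H.X, map_add, map_mul, sharp_cst, hz1, cst_sub', cst_sub', cst_one'] at h2
    have h4 : (1 - cst (z : RO ℤ) : AO ℤ (Ker (co phi i0))) * (sharp R * kap) =
        (1 - cst (z : RO ℤ)) * (cst (z : RO ℤ) * R) := by
      linear_combination -(cst (z : RO ℤ) : AO ℤ (Ker (co phi i0))) * h2 - (sharp R * kap) * hzz +
        (cst (z : RO ℤ) : AO ℤ (Ker (co phi i0))) * h3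
    exact mul_left_cancel₀ hne h4
  -- the reversal of `A`
  have h6 : emK (Ker (co phi i0)) (sharp G) * emK (Ker (co phi i0)) kap = -(cst (z : RO ℤ) * emK (Ker (co phi i0)) G) := by
    rw [← map_mul, h3, map_neg, map_mul, emK_cst]
  have h7 : emK (Ker (co phi i0)) (sharp R) * emK (Ker (co phi i0)) kap = cst (z : RO ℤ) * emK (Ker (co phi i0)) R := by
    rw [← map_mul, h5, map_mul, emK_cst]
  have hy := sharp_y (S := S) (eta := eta)
  unfold Ap Bp
  rw [map_add, map_mul, map_sub, map_one, sharp_emK, sharp_emK]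
  linear_combination (yS S eta) * h6 + ((yS S eta) - 1) * h7 -
    (emK (Ker (co phi i0)) (sharp R) * emK (Ker (co phi i0)) kap) * hy

/-! ### Coprimality, support, rank -/

theorem G_ne (H : Cx phi E S i0 h eta G R z) : G ≠ 0 := by
  intro h0
  have h1 := H47.cl_coeff_bin (co phi i0) S h eta E (bin_co H) 0
  rw [H.V, h0, mul_zero] at h1
  change 0 = E.coeff (0 : L) + (eta : RO ℤ) * E.coeff ((0 : L) + S) at h1
  rw [zero_add] at h1
  exact H.cc.v0 h1.symm

theorem cop (hUn : UnitAS) (H : Cx phi E S i0 h eta G R z) (hnu : ¬ IsUnit (1 - (z : RO ℤ)))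
    (d : AO ℤ L) (hd : Irreducible d) (hA : d ∣ Ap phi S i0 eta G R)
    (hS : d ∣ sharp (Ap phi S i0 eta G R)) : False := by
  obtain ⟨t, c, -, hrev⟩ := rev hUn H
  have hE : d ∣ E := by
    rw [E_eq H, ← hrev]
    exact dvd_add hA (hS.mul_right _)
  obtain ⟨w, hw⟩ := hE
  have hwu : IsUnit w := by
    rcases H.cc.dd.irr.isUnit_or_isUnit hw with h9 | h9
    · exact absurd h9 hd.not_isUnit
    · exact h9
  have hEA : E ∣ Ap phi S i0 eta G R := by
    rw [hw]
    exact (hwu.mul_right_dvd).2 hA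
  have h1 := map_dvd (cl (co phi i0) S h eta) hEA
  rw [cl_A, H.V] at h1
  obtain ⟨v, hv⟩ := h1
  have h2 : G * (cst (1 - (z : RO ℤ)) * v) = G * 1 := by
    rw [mul_one]
    conv_rhs => rw [hv]
    ring
  have h3 := mul_left_cancel₀ (G_ne H) h2
  apply hnu
  have h4 := congrArg (fun F : AO ℤ (Ker (co phi i0)) => F.coeff 0) h3
  change (cst (1 - (z : RO ℤ)) * v).coeff 0 = (1 : AO ℤ (Ker (co phi i0))).coeff 0 at h4
  have h5 : (1 : AO ℤ (Ker (co phi i0))).coeff 0 = 1 := by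
    rw [AddMonoidAlgebra.one_def, AddMonoidAlgebra.coeff_single, Finsupp.single_eq_same]
  rw [cst_mul_coeff, h5] at h4
  exact IsUnit.of_mul_eq_one _ h4

theorem supp_A (H : Cx phi E S i0 h eta G R z)
    (hG : ∀ a, (1 - (z : RO ℤ)) ∣ G.coeff a → G.coeff a = 0) :
    ∀ a ∈ supp (Ap phi S i0 eta G R), a ∈ supp E := by
  intro a ha h0
  have h00 : E.coeff a = 0 := h0
  rcases co_A (h := h) a ha with h1 | h1
  · have e1 := E_coeff0 H ⟨a, h1⟩
    have e2 := A_coeff0 (h := h) (eta := eta) (G := G) (R := R) ⟨a, h1⟩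
    change E.coeff a = _ at e1
    change (Ap phi S i0 eta G R).coeff a = _ at e2
    rw [h00] at e1
    have h2 : G.coeff ⟨a, h1⟩ = 0 := by
      apply hG
      refine ⟨-R.coeff ⟨a, h1⟩, ?_⟩
      linear_combination -e1
    rw [h2, zero_add] at e1 e2
    have h3 : R.coeff ⟨a, h1⟩ = 0 := (mul_eq_zero.1 e1.symm).resolve_left H.ne
    rw [h3] at e2
    exact ha e2
  · have hK : a - S ∈ Ker (co phi i0) := by
      rw [mem_Ker, map_sub, h1, h, sub_self]
    have e1 := E_coeff1 H ⟨a - S, hK⟩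
    have e2 := A_coeff1 (h := h) (eta := eta) (G := G) (R := R) ⟨a - S, hK⟩
    change (eta : RO ℤ) * E.coeff (a - S + S) = _ at e1
    change (eta : RO ℤ) * (Ap phi S i0 eta G R).coeff (a - S + S) = _ at e2
    rw [sub_add_cancel] at e1 e2
    rw [h00, mul_zero] at e1
    have h2 : G.coeff ⟨a - S, hK⟩ = 0 := by
      apply hG
      refine (z.isUnit.dvd_mul_left (a := 1 - (z : RO ℤ))).1 ?_
      refine ⟨-R.coeff ⟨a - S, hK⟩, ?_⟩
      linear_combination e1
    rw [h2, mul_zero, neg_zero, zero_sub, eq_comm, neg_eq_zero] at e1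
    have h3 : R.coeff ⟨a - S, hK⟩ = 0 := (mul_eq_zero.1 e1).resolve_left H.ne
    rw [h3, neg_zero] at e2
    exact ha ((mul_eq_zero.1 e2).resolve_left eta.ne_zero)

theorem rk_A (hR : RkS) (H : Cx phi E S i0 h eta G R z) (h0 : R.coeff 0 ≠ 0)
    (hdr : Module.finrank ℤ L = rk (supp (cl (co phi i0) S h eta E)) + 1) :
    rk (supp (Ap phi S i0 eta G R)) = Module.finrank ℤ L := by
  refine le_antisymm ((hR L L).2.2.1 _) ?_
  have h1 := (Dcm.rk_cl hR (co phi i0) S h eta (Ap phi S i0 eta G R)).2 (by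
    intro h2
    have h3 := A_coeff1 (h := h) (eta := eta) (G := G) (R := R) 0
    change (eta : RO ℤ) * (Ap phi S i0 eta G R).coeff (0 + S) = _ at h3
    have h4 : (Ap phi S i0 eta G R).coeff S = 0 := h2
    rw [zero_add, h4, mul_zero, eq_comm, neg_eq_zero] at h3
    exact h0 h3)
  rw [cl_A] at h1
  rw [hdr, H.V, Dcm.supp_cst H.ne]
  exact h1

/-! ### Stability -/

theorem rho_re (ζ ρ : ℂ) (h1 : ‖ζ‖ = 1) (h2 : ζ ≠ 1)
    (h3 : ‖ζ + (1 - ζ) * ρ‖ ≤ ‖1 + (1 - ζ) * ρ‖) : 0 ≤ ρ.re := by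
  have h4 : Complex.normSq (ζ + (1 - ζ) * ρ) ≤ Complex.normSq (1 + (1 - ζ) * ρ) := by
    rw [Complex.normSq_eq_norm_sq, Complex.normSq_eq_norm_sq]
    exact pow_le_pow_left₀ (norm_nonneg _) h3 2
  have h5 : Complex.normSq ζ = 1 := by rw [Complex.normSq_eq_norm_sq, h1, one_pow]
  have h6 : 0 < Complex.normSq (1 - ζ) := Complex.normSq_pos.2 (sub_ne_zero.2 (Ne.symm h2))
  have h7 : Complex.normSq (1 + (1 - ζ) * ρ) - Complex.normSq (ζ + (1 - ζ) * ρ) =
      1 - Complex.normSq ζ + 2 * Complex.normSq (1 - ζ) * ρ.re := by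
    simp only [Complex.normSq_apply, Complex.add_re, Complex.add_im, Complex.mul_re,
      Complex.mul_im, Complex.sub_re, Complex.sub_im, Complex.one_re, Complex.one_im]
    ring
  rw [h5] at h7
  by_contra hcon
  push Not at hcon
  nlinarith

theorem val_ne (g r ζ y : ℂ) (h1 : ‖ζ‖ = 1) (hV : (1 - ζ) * g ≠ 0)
    (hle : ‖(1 - ζ) * g - (g + (1 - ζ) * r)‖ ≤ ‖g + (1 - ζ) * r‖) (hy : ‖y‖ < 1) :
    g + r + y * (g - (g + r)) ≠ 0 := by
  have hg : g ≠ 0 := right_ne_zero_of_mul hV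
  have h2 : ζ ≠ 1 := fun h => left_ne_zero_of_mul hV (by rw [h, sub_self])
  have hr : r = g * (r / g) := by field_simp
  set ρ := r / g with hρ
  have h3 : 0 ≤ ρ.re := by
    refine rho_re ζ ρ h1 h2 ?_
    have e1 : (1 - ζ) * g - (g + (1 - ζ) * r) = -(g * (ζ + (1 - ζ) * ρ)) := by
      rw [hr]; ring
    have e2 : g + (1 - ζ) * r = g * (1 + (1 - ζ) * ρ) := by
      rw [hr]; ring
    rw [e1, e2, norm_neg, norm_mul, norm_mul] at hle
    exact le_of_mul_le_mul_left hle (norm_pos_iff.2 hg)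
  intro h0
  have h4 : 1 + ρ = y * ρ := by
    have h5 : g * (1 + ρ - y * ρ) = 0 := by
      rw [← h0, hr]; ring
    have h6 := (mul_eq_zero.1 h5).resolve_left hg
    linear_combination h6
  have h5 : Complex.normSq (1 + ρ) ≤ Complex.normSq ρ := by
    rw [h4, Complex.normSq_mul]
    have : Complex.normSq y ≤ 1 := by
      rw [Complex.normSq_eq_norm_sq]
      nlinarith [norm_nonneg y]
    nlinarith [Complex.normSq_nonneg ρ]
  have h6 : Complex.normSq (1 + ρ) = 1 + 2 * ρ.re + Complex.normSq ρ := by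
    simp only [Complex.normSq_apply, Complex.add_re, Complex.add_im, Complex.one_re,
      Complex.one_im]
    ring
  rw [h6] at h5
  linarith

theorem sl_cst {L' : Type} [AddCommGroup L'] [Module.Free ℤ L'] [Module.Finite ℤ L']
    (z0 : Circle) (v : AddChar L' Circle) (lam : L' →+ ℤ) (c : RO ℤ) (F : AO ℤ L') (s : ℂ) :
    (sl v lam (spec z0 (cst c * F))).eval s = evR z0 c * (sl v lam (spec z0 F)).eval s := by
  rw [Dcm.sl_eq_Ph, Dcm.Ph_cst, ← Dcm.sl_eq_Ph, Polynomial.eval_smul, smul_eq_mul]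

theorem A_ne (h2 : MultiS) (h3 : StSpecS) (h5 : B2cS) (h6 : G0S) (h7 : EvRS)
    (H : Cx phi E S i0 h eta G R z)
    (hG : ∀ a, (1 - (z : RO ℤ)) ∣ G.coeff a → G.coeff a = 0) (lam : L →+ ℤ) (hS : lam S = 0)
    (hlam : ∀ a ∈ supp E, a ≠ 0 → a ≠ S → 0 < lam a) {z0 : Circle}
    (hz : evR z0 (E.coeff 0 + (eta : RO ℤ) * E.coeff S) ≠ 0) (u : AddChar L Circle) (s : ℂ)
    (hs : ‖s‖ < 1) :
    (sl u (lam + co phi i0) (spec z0 (Ap phi S i0 eta G R))).eval s ≠ 0 := by
  have hsub := supp_A H hG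
  have hbin := bin_co H
  have hln : ∀ a ∈ supp E, 0 ≤ lam a := by
    intro a ha
    rcases eq_or_ne a 0 with rfl | h0
    · rw [map_zero]
    · rcases eq_or_ne a S with rfl | h1
      · rw [hS]
      · exact (hlam a ha h0 h1).le
  rw [Dcm.sl_two z0 u lam (co phi i0) _ (fun a ha => ⟨hln a (hsub a ha), by
    rcases hbin a (hsub a ha) with h | h <;> omega⟩) s]
  rw [shift (co phi i0) S h lam z0 u _ (fun a ha => hbin a (hsub a ha)) s s,
    two_slice (co phi i0) S h eta lam hS z0 _ _ (fun a ha => hbin a (hsub a ha)) s _, cl_A,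
    res_A (h := h)]
  set v := u.compAddMonoidHom (incl (Ker (co phi i0))) with hv
  obtain ⟨h8, h9⟩ := harn (h := h) h2 h3 h5 h6 h7 H.cc lam hS hlam z0 hz v s hs
  rw [H.V, sl_cst] at h8 h9
  rw [H.X] at h9
  rw [map_add, H83.sl_add, Polynomial.eval_add, sl_cst] at h9
  rw [map_add, H83.sl_add, Polynomial.eval_add]
  have hn : ‖evR z0 (eta : RO ℤ)‖ = 1 := (h7 ℤ).2.1 z0 _ eta.isUnit
  have hζ : ‖evR z0 (z : RO ℤ)‖ = 1 := (h7 ℤ).2.1 z0 _ z.isUnit
  rw [map_sub, map_one] at h8 h9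
  rw [← mul_assoc]
  refine val_ne _ _ (evR z0 (z : RO ℤ)) _ hζ h8 h9 ?_
  rw [norm_mul, norm_mul, norm_inv, hn, Circle.norm_coe, inv_one, mul_one, mul_one]
  exact hs

theorem A_stable (h2 : MultiS) (h3 : StSpecS) (h5 : B2cS) (h6 : G0S) (h7 : EvRS) (hA : A3bS)
    (hZ : ZfinS) (H : Cx phi E S i0 h eta G R z)
    (hG : ∀ a, (1 - (z : RO ℤ)) ∣ G.coeff a → G.coeff a = 0) :
    Stable (Ap phi S i0 eta G R) := by
  obtain ⟨lam, hlS, hlam⟩ := H.cc.ray.2.2
  refine Dcm.stable_of_generic h7 hA hZ _ (lam + co phi i0) ?_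
    (E.coeff 0 + (eta : RO ℤ) * E.coeff S) H.cc.v0 ?_
  · intro a ha ha0
    have ha' : a ∈ supp E := supp_A H hG a (Finsupp.mem_support_iff.1 ha)
    have hk := bin_co H a ha'
    change 0 < lam a + co phi i0 a
    rcases eq_or_ne a S with rfl | h1
    · rw [hlS, h]
      norm_num
    · have := hlam _ ha' ha0 h1
      omega
  · intro z0 hz u s hs
    exact A_ne h2 h3 h5 h6 h7 H hG lam hlS hlam hz u s hs

/-! ### The completion -/

theorem dd_compl (hUn : UnitAS) (hCI : ComplIrrS) (hC : ComplS)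
    (H : Cx phi E S i0 h eta G R z) (hnu : ¬ IsUnit (1 - (z : RO ℤ)))
    (hG : ∀ a, (1 - (z : RO ℤ)) ∣ G.coeff a → G.coeff a = 0)
    (hst : Stable (Ap phi S i0 eta G R))
    (hrk : rk (supp (Ap phi S i0 eta G R)) = Module.finrank ℤ L) :
    ∃ b : L, DD (phC phi b) (compl (Ap phi S i0 eta G R)) ∧
      (compl (Ap phi S i0 eta G R)).coeff 0 = (Ap phi S i0 eta G R).coeff 0 := by
  obtain ⟨h1, h2, h3, h4, h5⟩ := hC ℤ L _ hst
  obtain ⟨b, hb⟩ := Pool.Agent.B5.H03.un_symm hUn H.cc.dd.un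
  have hsG := supp_A H hG
  have hG0 : Ap phi S i0 eta G R ≠ 0 := by
    intro h0
    apply hst.1
    rw [h0]
    rfl
  refine ⟨b, ⟨?_, ?_, h1, h2, hCI ℤ L _ hG0 (fun d hd hdA hdS => cop hUn H hnu d hd hdA hdS), ?_⟩,
    h3⟩
  · intro x y hxy
    have h6 : x.2 = y.2 := congrFun hxy none
    have h7 : phi (x.1 + x.2 • b) = phi (y.1 + y.2 • b) := by
      funext p
      exact congrFun hxy (some p)
    have h8 := H.cc.dd.inj h7
    rw [h6] at h8
    exact Prod.ext (add_right_cancel h8) h6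
  · intro x hx i
    rcases h4 x hx with ⟨h6, h7⟩ | ⟨h6, h7⟩
    · cases i with
      | none => left; exact h6
      | some p =>
        have h8 := H.cc.dd.bin _ (hsG _ h7) p
        have h9 : phC phi b x (some p) = phi x.1 p := by
          change phi (x.1 + x.2 • b) p = _
          rw [h6, zero_smul, add_zero]
        rw [h9]
        exact h8
    · cases i with
      | none => right; exact h6
      | some p =>
        have h8 := H.cc.dd.bin _ (hb _ (hsG _ h7)) p
        have h9 : phC phi b x (some p) = phi (b - -x.1) p := by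
          change phi (x.1 + x.2 • b) p = _
          rw [h6, one_smul, sub_neg_eq_add, add_comm]
        rw [h9]
        exact h8
  · rw [h5, hrk, Module.finrank_prod, Module.finrank_self]

end parts


/-! ## One variable -/

section one

open Polynomial

/-- the unit `ep z^k` -/
theorem zu_exists (k : ℕ) (ep : ℤ) (hep : ep = 1 ∨ ep = -1) :
    ∃ zu : (RO ℤ)ˣ, toLaurent (1 - C ep * X ^ k) = 1 - (zu : RO ℤ) := by
  refine ⟨⟨Dcm.mz k ep, Dcm.mz (-k) ep, ?_, ?_⟩, ?_⟩
  · rw [Dcm.mz_mul]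
    rcases hep with h | h <;> rw [h] <;> norm_num <;> rfl
  · rw [Dcm.mz_mul]
    rcases hep with h | h <;> rw [h] <;> norm_num <;> rfl
  · rw [map_sub, map_one, toLaurent_C_mul_X_pow, ← LaurentPolynomial.single_eq_C_mul_T]
    rfl

theorem evR_aeval (z : Circle) (f : ℤ[X]) : evR z (toLaurent f) = aeval (z : ℂ) f := by
  rw [H91.evR_toLaurent, Dcm.map_emb]

/-- a zero on the circle -/
theorem zero_exists (k : ℕ) (hk : 1 ≤ k) (ep : ℤ) (hep : ep = 1 ∨ ep = -1) :
    ∃ z : Circle, evR z (toLaurent (1 - C ep * X ^ k) : RO ℤ) = 0 := by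
  rcases hep with h | h
  · refine ⟨1, ?_⟩
    rw [evR_aeval, h]
    simp
  · refine ⟨Circle.exp (Real.pi / k), ?_⟩
    rw [evR_aeval, h]
    have h1 : ((Circle.exp (Real.pi / k) : Circle) : ℂ) ^ k = -1 := by
      rw [Circle.coe_exp, ← Complex.exp_nat_mul]
      have h2 : (k : ℂ) * (((Real.pi / k : ℝ) : ℂ) * Complex.I) = Real.pi * Complex.I := by
        have h3 : (k : ℂ) ≠ 0 := by exact_mod_cast (by omega : k ≠ 0)
        push_cast
        field_simp
      rw [h2, Complex.exp_pi_mul_I]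
    rw [map_sub, map_one, map_mul, map_pow, aeval_X, h1, aeval_C]
    simp

theorem w_coeff0 (k : ℕ) (hk : 1 ≤ k) (ep : ℤ) : (1 - C ep * X ^ k : ℤ[X]).coeff 0 = 1 := by
  rw [coeff_sub, coeff_C_mul, coeff_X_pow, if_neg (by omega), mul_zero, coeff_one_zero, sub_zero]

theorem w_ne (k : ℕ) (hk : 1 ≤ k) (ep : ℤ) : (toLaurent (1 - C ep * X ^ k) : RO ℤ) ≠ 0 := by
  intro h
  have h1 : (1 - C ep * X ^ k : ℤ[X]) = 0 := Dcm.toLaurent_inj' (h.trans (map_zero toLaurent).symm)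
  have h2 := w_coeff0 k hk ep
  rw [h1, coeff_zero] at h2
  exact zero_ne_one h2

theorem w_not_unit (h7 : EvRS) (k : ℕ) (hk : 1 ≤ k) (ep : ℤ) (hep : ep = 1 ∨ ep = -1) :
    ¬ IsUnit (toLaurent (1 - C ep * X ^ k) : RO ℤ) := by
  intro h
  obtain ⟨z, hz⟩ := zero_exists k hk ep hep
  have h1 := (h7 ℤ).2.1 z _ h
  rw [hz, norm_zero] at h1
  exact zero_ne_one h1

/-- the coefficients of a z-free element are monomials -/
theorem zfree_mono {L' : Type} [AddCommGroup L'] {F : AO ℤ L'} (hF : ZFree F) (a : L') :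
    ∃ (n : ℤ) (x : ℤ), F.coeff a = Dcm.mz n x := by
  obtain ⟨q, l, n0, hq, hz⟩ := hF
  by_cases h0 : F.coeff a = 0
  · refine ⟨0, 0, ?_⟩
    rw [h0]
    unfold Dcm.mz
    rw [AddMonoidAlgebra.single_zero]
  · have h1 : ∃ k, (F.coeff a).coeff k ≠ 0 := by
      by_contra hcon
      push Not at hcon
      apply h0
      apply AddMonoidAlgebra.ext
      apply Finsupp.ext
      intro k
      exact hcon k
    obtain ⟨k, hk⟩ := h1
    refine ⟨k, (F.coeff a).coeff k, ?_⟩
    apply AddMonoidAlgebra.ext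
    apply Finsupp.ext
    intro j
    unfold Dcm.mz
    rw [AddMonoidAlgebra.coeff_single, Finsupp.single_apply]
    by_cases hj : k = j
    · rw [if_pos hj, hj]
    · rw [if_neg hj]
      by_contra h2
      have h3 := hz a j h2
      have h4 := hz a k hk
      apply hj
      have h5 : (q : ℤ) * k = q * j := h4.trans h3.symm
      exact mul_left_cancel₀ (by exact_mod_cast hq.ne') h5

/-- `1 - ep z^k` divides no monomial -/
theorem w_dvd (k : ℕ) (hk : 1 ≤ k) (ep : ℤ) (hep : ep = 1 ∨ ep = -1) (x : RO ℤ)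
    (hx : ∃ (n : ℤ) (c : ℤ), x = Dcm.mz n c)
    (hd : (toLaurent (1 - C ep * X ^ k) : RO ℤ) ∣ x) : x = 0 := by
  obtain ⟨n, c, rfl⟩ := hx
  obtain ⟨z, hz⟩ := zero_exists k hk ep hep
  obtain ⟨w, hw⟩ := hd
  have h1 := congrArg (evR z) hw
  rw [map_mul, hz, zero_mul, Dcm.evR_mz] at h1
  have h2 : (Coef.emb c : ℂ) = 0 := (mul_eq_zero.1 h1).resolve_right (Circle.coe_ne_zero _)
  have h3 : c = 0 := emb_inj (h2.trans (map_zero _).symm)
  rw [h3]
  unfold Dcm.mz
  rw [AddMonoidAlgebra.single_zero]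

/-- a quotient by `1 - ep z^k` is a polynomial -/
theorem quo (k : ℕ) (hk : 1 ≤ k) (ep : ℤ) (r : RO ℤ) (f : ℤ[X])
    (h : (toLaurent (1 - C ep * X ^ k) : RO ℤ) * r = toLaurent f) :
    ∃ r0 : ℤ[X], r = toLaurent r0 := by
  by_cases hr : r = 0
  · exact ⟨0, by rw [hr, map_zero]⟩
  obtain ⟨k1, r1, hr1, hr10⟩ := Dcm.lau_nf r hr
  have h1 : LaurentPolynomial.T k1 * toLaurent ((1 - C ep * X ^ k) * r1) = toLaurent f := by
    rw [← h, hr1, map_mul]
    ring
  have h2 : (toLaurent f).coeff k1 ≠ 0 := by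
    rw [← h1]
    change (AddMonoidAlgebra.single k1 (1 : ℤ) *
      toLaurent ((1 - C ep * X ^ k) * r1) : RO ℤ).coeff k1 ≠ 0
    rw [AddMonoidAlgebra.coeff_single_mul_apply, one_mul, neg_add_cancel]
    have h3 := Dcm.toLaurent_coeff_nonneg ((1 - C ep * X ^ k) * r1) 0
    rw [Nat.cast_zero] at h3
    rw [h3, mul_coeff_zero, w_coeff0 k hk, one_mul]
    exact hr10
  have h3 : 0 ≤ k1 := by
    by_contra hcon
    push Not at hcon
    exact h2 (Dcm.toLaurent_coeff_neg f k1 hcon)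
  obtain ⟨j, rfl⟩ := Int.eq_ofNat_of_zero_le h3
  refine ⟨X ^ j * r1, ?_⟩
  rw [hr1, map_mul, toLaurent_X_pow]

/-- real part nonnegative on the circle, so in the disc -/
theorem re_disc (r0 : ℤ[X]) (h : ∀ z : Circle, 0 ≤ (aeval (z : ℂ) r0 : ℂ).re) (z : ℂ)
    (hz : ‖z‖ < 1) : 0 ≤ (aeval z r0 : ℂ).re := by
  have hd : Differentiable ℂ fun z : ℂ => Complex.exp (-(aeval z r0 : ℂ)) := by
    have h1 : Differentiable ℂ fun z : ℂ => (aeval z r0 : ℂ) := r0.differentiable_aeval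
    exact h1.neg.cexp
  have h2 := Complex.norm_le_of_forall_mem_frontier_norm_le (U := Metric.ball (0 : ℂ) 1)
    Metric.isBounded_ball hd.diffContOnCl (C := 1) (by
      intro w hw
      rw [frontier_ball _ one_ne_zero, mem_sphere_zero_iff_norm] at hw
      rw [Complex.norm_exp, Complex.neg_re, Real.exp_le_one_iff, neg_nonpos]
      exact h ⟨w, mem_sphere_zero_iff_norm.2 hw⟩) (subset_closure (mem_ball_zero_iff.2 hz))
  rw [Complex.norm_exp, Complex.neg_re, Real.exp_le_one_iff, neg_nonpos] at h2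
  exact h2

end one

/-- Class `V(N')`, `N' ≤ j`, rank at least `2 j + 1`: impossible. -/
theorem fcl_no (hEvz : EvzS) (hEv1 : BdV ℤ 1 1) {j : ℕ} (hj : 2 ≤ j) {N' : ℝ} (hN : N' ≤ j)
    {P' L' : Type} [Fintype P'] [DecidableEq P'] [AddCommGroup L'] [Module.Free ℤ L']
    [Module.Finite ℤ L'] {phi' : L' →+ (P' → ℤ)} {D' : AO ℤ L'} (hD : DD phi' D')
    (hV : ClassV N' (D'.coeff 0)) (hr : 2 * j + 1 ≤ Module.finrank ℤ L') : False := by
  obtain ⟨h1, n, g, hg, hg0, hz⟩ := id hV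
  have h2 : N' = ((g.coeff 0).natAbs : ℕ) := by
    rw [← hg0]
    change ‖((g.coeff 0 : ℤ) : ℂ)‖ = _
    rw [Complex.norm_intCast, Nat.cast_natAbs, Int.cast_abs]
  obtain ⟨m, hm⟩ : ∃ m : ℕ, m = (g.coeff 0).natAbs := ⟨_, rfl⟩
  rw [← hm] at h2
  rw [h2] at hN h1 hV
  have hmj : m ≤ j := by exact_mod_cast hN
  have hm1 : 1 ≤ m := by exact_mod_cast h1
  rcases Nat.lt_or_ge m 2 with h3 | h3
  · have h4 : m = 1 := by omega
    rw [h4, Nat.cast_one] at hV
    have h5 := hEv1 P' L' phi' D' hD hV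
    have h6 : Module.finrank ℤ L' ≤ 1 := by exact_mod_cast h5
    omega
  · have h5 := hEvz m h3 P' L' phi' D' hD hV
    have h6 : Module.finrank ℤ L' ≤ 2 * m := by exact_mod_cast h5
    omega

/-! ## The row -/

open Polynomial in
/-- (UF_C3) decoupling. -/
theorem dcp (h2 : MultiS) (h3 : StSpecS) (h5 : B2cS) (h6 : G0S) (h7 : EvRS) (hA : A3bS)
    (hZ : ZfinS) (hUn : UnitAS) (hCI : ComplIrrS) (hC : ComplS) (hR : RkS) (hFcl : FclS)
    (hEvz : EvzS) (hEv1 : BdV ℤ 1 1) : DcpS := by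
  intro P L _ _ _ _ _ phi E S i0 h eta G R N k ep p0 u0 hD hRay hN hV hrk hdr he0 hp0 hk hep
    hcl hzf hg0 hX
  obtain ⟨zu, hzu⟩ := zu_exists k ep hep
  have hbin : ∀ a ∈ supp E, co phi i0 a = 0 ∨ co phi i0 a = 1 := fun a ha => hD.bin a ha i0
  have hw := w_ne k hk ep
  -- the constant coefficients
  have hV0 : E.coeff 0 + (eta : RO ℤ) * E.coeff S =
      toLaurent (1 - C ep * X ^ k) * G.coeff 0 := by
    have e1 := H47.cl_coeff_bin (co phi i0) S h eta E hbin 0
    rw [hcl, cst_mul_coeff] at e1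
    change _ = E.coeff (0 : L) + (eta : RO ℤ) * E.coeff ((0 : L) + S) at e1
    rw [zero_add] at e1
    exact e1.symm
  have hN1 : (C ((N : ℤ) - 1) : ℤ[X]) ≠ 0 := by
    rw [Ne, C_eq_zero]
    omega
  have hG0 : G.coeff 0 ≠ 0 := by
    intro h0
    rw [h0, mul_zero] at hg0
    exact hN1 (Dcm.toLaurent_inj' (hg0.symm.trans (map_zero toLaurent).symm))
  have hcc : CC phi E S i0 eta := by
    refine ⟨hD, by omega, hRay, h, ?_⟩
    rw [hV0]
    exact mul_ne_zero hw hG0
  have H : Cx phi E S i0 h eta G R zu := by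
    refine ⟨hcc, by rw [← hzu]; exact hw, by rw [← hzu]; exact hcl, ?_⟩
    apply AddMonoidAlgebra.ext
    apply Finsupp.ext
    intro a
    rw [res_coeff, hX a, hzu, AddMonoidAlgebra.coeff_add, Finsupp.add_apply, cst_mul_coeff]
  have hnu : ¬ IsUnit (1 - (zu : RO ℤ)) := by
    rw [← hzu]
    exact w_not_unit h7 k hk ep hep
  have hGd : ∀ a, (1 - (zu : RO ℤ)) ∣ G.coeff a → G.coeff a = 0 := by
    intro a ha
    rw [← hzu] at ha
    exact w_dvd k hk ep hep _ (zfree_mono hzf a) ha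
  -- the quotient
  have hX0 : E.coeff 0 = G.coeff 0 + toLaurent (1 - C ep * X ^ k) * R.coeff 0 := hX 0
  have hq : (toLaurent (1 - C ep * X ^ k) : RO ℤ) * ((u0 : RO ℤ) * R.coeff 0) =
      toLaurent (p0 - C ((N : ℤ) - 1)) := by
    rw [map_sub toLaurent p0, ← he0, ← hg0, hX0]
    ring
  obtain ⟨r0, hr0⟩ := quo k hk ep _ _ hq
  have hr00 : r0.coeff 0 = 1 := by
    have e1 : (1 - C ep * X ^ k) * r0 = p0 - C ((N : ℤ) - 1) := by
      apply Dcm.toLaurent_inj'
      rw [map_mul, ← hr0, hq]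
    have e2 := congrArg (fun f : ℤ[X] => f.coeff 0) e1
    change ((1 - C ep * X ^ k) * r0).coeff 0 = (p0 - C ((N : ℤ) - 1)).coeff 0 at e2
    rw [mul_coeff_zero, w_coeff0 k hk, one_mul, coeff_sub, hp0, coeff_C_zero] at e2
    rw [e2]
    ring
  have hR0 : R.coeff 0 ≠ 0 := by
    intro h0
    rw [h0, mul_zero] at hr0
    have e1 : r0 = 0 := Dcm.toLaurent_inj' (hr0.symm.trans (map_zero toLaurent).symm)
    rw [e1, coeff_zero] at hr00
    exact zero_ne_one hr00
  -- the completion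
  have hst := A_stable h2 h3 h5 h6 h7 hA hZ H hGd
  obtain ⟨b, hDD, hc0⟩ := dd_compl hUn hCI hC H hnu hGd hst (rk_A hR H hR0 hdr)
  have hA0 : (Ap phi S i0 eta G R).coeff 0 = ((u0⁻¹ : (RO ℤ)ˣ) : RO ℤ) *
      toLaurent (C ((N : ℤ) - 1) + r0) := by
    have e1 := A_coeff0 (h := h) (eta := eta) (G := G) (R := R) 0
    change (Ap phi S i0 eta G R).coeff 0 = _ at e1
    rw [e1, map_add, ← hg0, ← hr0, ← mul_add, ← mul_assoc, Units.inv_mul, one_mul]
  -- class V
  have hre : ∀ z : Circle, 0 ≤ (aeval (z : ℂ) r0 : ℂ).re := by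
    have hcl' : IsClosed {z : Circle | 0 ≤ (evR z (toLaurent r0)).re} :=
      isClosed_le continuous_const (Complex.continuous_re.comp ((h7 ℤ).2.2.2 (toLaurent r0)))
    have hall := H09.tpm_dense hZ (toLaurent (1 - C ep * X ^ k) : RO ℤ) hw _ hcl' (by
      intro z hz
      rw [hzu, map_sub, map_one] at hz
      have e1 := (h5 ℤ L E hD.st).2 S hRay z
      have hu : ‖evR z (u0 : RO ℤ)‖ = 1 := (h7 ℤ).2.1 z _ u0.isUnit
      have he : ‖evR z (eta : RO ℤ)‖ = 1 := (h7 ℤ).2.1 z _ eta.isUnit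
      have hζ : ‖evR z (zu : RO ℤ)‖ = 1 := (h7 ℤ).2.1 z _ zu.isUnit
      have hm : (0 : ℝ) < (N : ℝ) - 1 := by
        have : (3 : ℝ) ≤ N := by exact_mod_cast hN
        linarith
      have e2 : evR z (u0 : RO ℤ) * evR z (G.coeff 0) = (((N : ℝ) - 1 : ℝ) : ℂ) := by
        rw [← map_mul, hg0, evR_aeval, aeval_C]
        simp
      have e3 : evR z (u0 : RO ℤ) * evR z (R.coeff 0) = evR z (toLaurent r0) := by
        rw [← map_mul, hr0]
      have e4 : evR z (E.coeff 0) = evR z (G.coeff 0) + (1 - evR z (zu : RO ℤ)) *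
          evR z (R.coeff 0) := by
        rw [hX0, hzu, map_add, map_mul, map_sub, map_one]
      have e5 : evR z (eta : RO ℤ) * evR z (E.coeff S) =
          (1 - evR z (zu : RO ℤ)) * evR z (G.coeff 0) - evR z (E.coeff 0) := by
        have e6 := congrArg (evR z) hV0
        rw [map_add, map_mul, hzu, map_mul, map_sub, map_one] at e6
        linear_combination e6
      set ζ := evR z (zu : RO ℤ) with hζd
      set ρ : ℂ := evR z (toLaurent r0) / (((N : ℝ) - 1 : ℝ) : ℂ) with hρ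
      have hmc : (((N : ℝ) - 1 : ℝ) : ℂ) ≠ 0 := by exact_mod_cast hm.ne'
      have e7 : ‖ζ + (1 - ζ) * ρ‖ ≤ ‖1 + (1 - ζ) * ρ‖ := by
        have f1 : evR z (u0 : RO ℤ) * evR z (E.coeff 0) =
            (((N : ℝ) - 1 : ℝ) : ℂ) * (1 + (1 - ζ) * ρ) := by
          rw [e4, mul_add, e2, hρ]
          have : evR z (u0 : RO ℤ) * ((1 - ζ) * evR z (R.coeff 0)) =
              (1 - ζ) * evR z (toLaurent r0) := by
            rw [← e3]; ring
          rw [this]
          field_simp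
        have f2 : evR z (u0 : RO ℤ) * (evR z (eta : RO ℤ) * evR z (E.coeff S)) =
            -((((N : ℝ) - 1 : ℝ) : ℂ) * (ζ + (1 - ζ) * ρ)) := by
          rw [e5, mul_sub, f1]
          have : evR z (u0 : RO ℤ) * ((1 - ζ) * evR z (G.coeff 0)) =
              (1 - ζ) * (((N : ℝ) - 1 : ℝ) : ℂ) := by
            rw [← e2]; ring
          rw [this]
          ring
        have f3 := congrArg norm f1
        have f4 := congrArg norm f2
        rw [norm_mul, norm_mul, hu, one_mul] at f3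
        rw [norm_mul, norm_mul, norm_neg, norm_mul, hu, he, one_mul, one_mul] at f4
        rw [f3, f4] at e1
        exact le_of_mul_le_mul_left e1 (norm_pos_iff.2 hmc)
      have hζ1 : ζ ≠ 1 := fun hh => hz (by rw [hh, sub_self])
      have e8 := rho_re ζ ρ hζ hζ1 e7
      change 0 ≤ (evR z (toLaurent r0)).re
      have e9 : evR z (toLaurent r0) = (((N : ℝ) - 1 : ℝ) : ℂ) * ρ := by
        rw [hρ]; field_simp
      rw [e9, Complex.re_ofReal_mul]
      exact mul_nonneg hm.le e8)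
    intro z
    have := hall z
    rwa [evR_aeval] at this
  have hVN : ClassV (N : ℝ) ((compl (Ap phi S i0 eta G R)).coeff 0) := by
    rw [hc0, hA0]
    apply Dcm.classV_unit
    have e1 := Dcm.classV_poly (N := (N : ℤ)) (by omega) (F := C ((N : ℤ) - 1) + r0) (by
      rw [coeff_add, coeff_C_zero, hr00, sub_add_cancel]
      exact abs_of_nonneg (by omega)) (by
      intro z hz h0
      have e2 := re_disc r0 hre z hz
      rw [map_add, aeval_C] at h0
      have e3 := congrArg Complex.re h0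
      rw [Complex.add_re, Complex.zero_re] at e3
      have e4 : ((algebraMap ℤ ℂ) ((N : ℤ) - 1)).re = (N : ℝ) - 1 := by
        simp
      rw [e4] at e3
      have : (3 : ℝ) ≤ N := by exact_mod_cast hN
      linarith)
    rw [Int.cast_natCast] at e1
    exact e1
  have hfr : Module.finrank ℤ (L × ℤ) = Module.finrank ℤ L + 1 := by
    rw [Module.finrank_prod, Module.finrank_self]
  rcases hFcl ℤ (Option P) (L × ℤ) (phC phi b) (compl (Ap phi S i0 eta G R)) N hDD hVN
    (by omega) with hzf' | ⟨N', b', D', hN', hD', hVD', hrD'⟩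
  · -- z-free
    obtain ⟨q, l, n0, hq0, hz⟩ := hzf'
    obtain ⟨j, s, hs⟩ := Dcm.unit_mz u0⁻¹
    have hF : ∀ i : ℕ, 0 < i → (C ((N : ℤ) - 1) + r0).coeff i = 0 := by
      intro i hi
      by_contra hcon
      have hco : ∀ i : ℕ, (((u0⁻¹ : (RO ℤ)ˣ) : RO ℤ) *
          toLaurent (C ((N : ℤ) - 1) + r0)).coeff (j + i) =
            (s : ℤ) * (C ((N : ℤ) - 1) + r0).coeff i := by
        intro i
        rw [hs]
        unfold Dcm.mz
        rw [AddMonoidAlgebra.coeff_single_mul_apply, neg_add_cancel_left,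
          Dcm.toLaurent_coeff_nonneg]
      have e1 := hz 0 (j + i) (by
        rw [hc0, hA0, hco]
        exact mul_ne_zero s.ne_zero hcon)
      have e2 := hz 0 (j + (0 : ℕ)) (by
        rw [hc0, hA0, hco, coeff_add, coeff_C_zero, hr00, sub_add_cancel]
        exact mul_ne_zero s.ne_zero (by omega))
      have e3 : (q : ℤ) * (j + i) = q * (j + (0 : ℕ)) := e1.trans e2.symm
      have e4 := mul_left_cancel₀ (by exact_mod_cast hq0.ne') e3
      push_cast at e4
      omega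
    have hr1 : r0 = 1 := by
      ext i
      rcases Nat.eq_zero_or_pos i with h0 | h0
      · rw [h0, hr00, coeff_one_zero]
      · have e1 := hF i h0
        rw [coeff_add, coeff_C, if_neg (by omega), zero_add] at e1
        rw [e1, coeff_one, if_neg (by omega)]
    rw [hr0, hr1, map_one]
  · exfalso
    exact fcl_no hEvz hEv1 (by omega) hN' hD' hVD' (by omega)

end Pool.Agent.B5.UF.H19
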